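import Pool.Agent.H75.CO.Defs
import Pool.Agent.H25.DI.Lat

/-!
# H25 CO, Bas: basic lemmas on modules, norms and their exponents
-/

set_option autoImplicit false

namespace Pool.Agent.H25.CO

open Pool.Agent.H54.TT Pool.Agent.H98.RH Pool.Agent.H75.CO Pool.Agent.H25.DI Matrix
open scoped Pointwise

section

variable {K : Type} [Field K] {v : K → ℤ} {hv : IsDV v} {n : ℕ} {π : Kˣ}

/-! ### shifts -/

theorem mem_sh {k : ℤ} {M : Lt hv n} {x : Fin n → K} : x ∈ sh π k M ↔ ((π ^ (-k) : Kˣ) : K) • x ∈ M := by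
  constructor
  · rintro ⟨y, hy, rfl⟩
    show ((π ^ (-k) : Kˣ) : K) • (((π ^ k : Kˣ) : K) • y) ∈ M
    rw [smul_smul, ← Units.val_mul, ← _root_.zpow_add, neg_add_cancel, _root_.zpow_zero, Units.val_one, one_smul]
    exact hy
  · intro h
    refine ⟨((π ^ (-k) : Kˣ) : K) • x, h, ?_⟩
    show ((π ^ k : Kˣ) : K) • (((π ^ (-k) : Kˣ) : K) • x) = x
    rw [smul_smul, ← Units.val_mul, ← _root_.zpow_add, add_neg_cancel, _root_.zpow_zero, Units.val_one, one_smul]

theorem sh_zero (M : Lt hv n) : sh π 0 M = M := by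
  ext x
  rw [mem_sh, neg_zero, _root_.zpow_zero, Units.val_one, one_smul]

theorem sh_sh (j k : ℤ) (M : Lt hv n) : sh π j (sh π k M) = sh π (j + k) M := by
  ext x
  rw [mem_sh, mem_sh, mem_sh, smul_smul, ← Units.val_mul, ← _root_.zpow_add, neg_add_rev]

theorem sh_mono {k : ℤ} {M N : Lt hv n} (h : M ≤ N) : sh π k M ≤ sh π k N := Submodule.map_mono h

theorem sh_le_iff {k : ℤ} {M N : Lt hv n} : sh π k M ≤ sh π k N ↔ M ≤ N := by
  refine ⟨fun h => ?_, sh_mono⟩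
  have := sh_mono (π := π) (k := -k) h
  rwa [sh_sh, sh_sh, neg_add_cancel, sh_zero, sh_zero] at this

theorem sh_le {k : ℤ} {M N : Lt hv n} : sh π k M ≤ N ↔ M ≤ sh π (-k) N := by
  rw [← sh_le_iff (π := π) (k := k) (M := M), sh_sh, add_neg_cancel, sh_zero]

theorem sh_inj {k : ℤ} {M N : Lt hv n} (h : sh π k M = sh π k N) : M = N :=
  le_antisymm (sh_le_iff.1 h.le) (sh_le_iff.1 h.ge)

theorem sh_sup (k : ℤ) (M N : Lt hv n) : sh π k (M ⊔ N) = sh π k M ⊔ sh π k N := Submodule.map_sup _ _ _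

theorem sh_inf (k : ℤ) (M N : Lt hv n) : sh π k (M ⊓ N) = sh π k M ⊓ sh π k N := by
  ext x
  rw [Submodule.mem_inf, mem_sh, mem_sh, mem_sh, Submodule.mem_inf]

theorem sh_iSup {ι : Sort*} (k : ℤ) (M : ι → Lt hv n) : sh π k (⨆ i, M i) = ⨆ i, sh π k (M i) := Submodule.map_iSup _ _

theorem sh_bot (k : ℤ) : sh π k (⊥ : Lt hv n) = ⊥ := Submodule.map_bot _

theorem sh_top (k : ℤ) : sh π k (⊤ : Lt hv n) = ⊤ := by
  ext x
  rw [mem_sh]
  exact ⟨fun _ => Submodule.mem_top, fun _ => Submodule.mem_top⟩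

theorem sh_isSub {W : Lt hv n} (hW : IsSub W) (k : ℤ) : sh π k W = W := by
  ext x
  rw [mem_sh]
  constructor
  · intro h
    have := hW ((π ^ k : Kˣ) : K) _ h
    rwa [smul_smul, ← Units.val_mul, ← _root_.zpow_add, add_neg_cancel, _root_.zpow_zero, Units.val_one, one_smul] at this
  · intro h
    exact hW _ _ h

/-- the powers of the uniformiser are integral -/
theorem pow_mem_Ov (hπ : v π = 1) {k : ℤ} (hk : 0 ≤ k) : ((π ^ k : Kˣ) : K) ∈ Ov hv := by
  intro _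
  rw [v_zpow hv hπ]
  exact hk

theorem sh_anti (hπ : v π = 1) {j k : ℤ} (h : j ≤ k) (M : Lt hv n) : sh π k M ≤ sh π j M := by
  intro x hx
  rw [mem_sh] at hx ⊢
  have h1 : ((π ^ (-j) : Kˣ) : K) • x = (⟨_, pow_mem_Ov (hv := hv) hπ (sub_nonneg.2 h)⟩ : Ov hv) • (((π ^ (-k) : Kˣ) : K) • x) := by
    show _ = ((π ^ (k - j) : Kˣ) : K) • (((π ^ (-k) : Kˣ) : K) • x)
    rw [smul_smul, ← Units.val_mul, ← _root_.zpow_add]
    congr 3
    ring
  rw [h1]
  exact M.smul_mem _ hx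

/-! ### balls of the norm of a module -/

theorem bl_mono (hπ : v π = 1) {s t : ℝ} (h : s ≤ t) (M : Lt hv n) : bl π M s ≤ bl π M t :=
  sh_anti hπ (neg_le_neg (Int.floor_le_floor h)) M

theorem bl_le_bl {M N : Lt hv n} (h : M ≤ N) (t : ℝ) : bl π M t ≤ bl π N t := sh_mono h

theorem bl_zero (M : Lt hv n) : bl π M 0 = M := by
  unfold bl
  rw [Int.floor_zero, neg_zero, sh_zero]

theorem bl_int (M : Lt hv n) (k : ℤ) : bl π M k = sh π (-k) M := by
  unfold bl
  rw [Int.floor_intCast]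

theorem bl_per (M : Lt hv n) (t : ℝ) (k : ℤ) : bl π M (t + k) = sh π (-k) (bl π M t) := by
  unfold bl
  rw [Int.floor_add_intCast, sh_sh]
  congr 1
  ring

theorem sh_bl (M : Lt hv n) (t : ℝ) (k : ℤ) : sh π k (bl π M t) = bl π M (t - k) := by
  have := bl_per (π := π) M t (-k)
  rw [neg_neg] at this
  rw [← this]
  congr 1
  push_cast
  ring

theorem bl_sh (M : Lt hv n) (t : ℝ) (k : ℤ) : bl π (sh π k M) t = bl π M (t - k) := by
  unfold bl
  rw [sh_sh, show t - (k : ℝ) = t + ((-k : ℤ) : ℝ) by push_cast; ring, Int.floor_add_intCast]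
  congr 1
  ring

theorem bl_rc (M : Lt hv n) (t : ℝ) : ∃ s, t < s ∧ bl π M s = bl π M t := by
  refine ⟨(t + (⌊t⌋ + 1)) / 2, ?_, ?_⟩
  · have := Int.lt_floor_add_one t
    linarith
  · unfold bl
    have h1 : ⌊(t + ((⌊t⌋ : ℝ) + 1)) / 2⌋ = ⌊t⌋ := by
      rw [Int.floor_eq_iff]
      have h2 := Int.floor_le t
      have h3 := Int.lt_floor_add_one t
      constructor <;> linarith
    rw [h1]

theorem bl_nm (hπ : v π = 1) (M : Lt hv n) : Nm π (bl π M) where
  mono := fun _ _ h => bl_mono hπ h M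
  per := fun t k => bl_per M t k
  rc := fun t => bl_rc M t

/-! ### the action of matrices -/

theorem mem_mv {g : GL (Fin n) K} {M : Lt hv n} {x : Fin n → K} : x ∈ mv g M ↔ (g⁻¹).val.mulVec x ∈ M := by
  constructor
  · rintro ⟨y, hy, rfl⟩
    show (g⁻¹).val.mulVec (g.val.mulVec y) ∈ M
    rw [inv_mulVec]
    exact hy
  · intro h
    exact ⟨(g⁻¹).val.mulVec x, h, mulVec_inv g x⟩

theorem mv_one (M : Lt hv n) : mv (1 : GL (Fin n) K) M = M := by
  ext x
  rw [mem_mv, inv_one, Units.val_one, Matrix.one_mulVec]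

theorem mv_mul (g h : GL (Fin n) K) (M : Lt hv n) : mv (g * h) M = mv g (mv h M) := by
  ext x
  rw [mem_mv, mem_mv, mem_mv, _root_.mul_inv_rev, Units.val_mul, Matrix.mulVec_mulVec]

theorem mv_mono {g : GL (Fin n) K} {M N : Lt hv n} (h : M ≤ N) : mv g M ≤ mv g N := Submodule.map_mono h

theorem mv_le_iff {g : GL (Fin n) K} {M N : Lt hv n} : mv g M ≤ mv g N ↔ M ≤ N := by
  refine ⟨fun h => ?_, mv_mono⟩
  have := mv_mono (g := g⁻¹) h
  rwa [← mv_mul, ← mv_mul, inv_mul_cancel, mv_one, mv_one] at this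

theorem mv_inj {g : GL (Fin n) K} {M N : Lt hv n} : mv g M = mv g N ↔ M = N :=
  ⟨fun h => le_antisymm (mv_le_iff.1 h.le) (mv_le_iff.1 h.ge), fun h => by rw [h]⟩

theorem mv_sup (g : GL (Fin n) K) (M N : Lt hv n) : mv g (M ⊔ N) = mv g M ⊔ mv g N := Submodule.map_sup _ _ _

theorem mv_inf (g : GL (Fin n) K) (M N : Lt hv n) : mv g (M ⊓ N) = mv g M ⊓ mv g N := by
  ext x
  rw [Submodule.mem_inf, mem_mv, mem_mv, mem_mv, Submodule.mem_inf]

theorem mv_iSup {ι : Sort*} (g : GL (Fin n) K) (M : ι → Lt hv n) : mv g (⨆ i, M i) = ⨆ i, mv g (M i) :=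
  Submodule.map_iSup _ _

theorem mv_bot (g : GL (Fin n) K) : mv g (⊥ : Lt hv n) = ⊥ := Submodule.map_bot _

theorem mv_top (g : GL (Fin n) K) : mv g (⊤ : Lt hv n) = ⊤ := by
  ext x
  rw [mem_mv]
  exact ⟨fun _ => Submodule.mem_top, fun _ => Submodule.mem_top⟩

theorem mv_sh (g : GL (Fin n) K) (k : ℤ) (M : Lt hv n) : mv g (sh π k M) = sh π k (mv g M) := by
  ext x
  rw [mem_mv, mem_sh, mem_sh, mem_mv, Matrix.mulVec_smul]

theorem mv_bl (g : GL (Fin n) K) (M : Lt hv n) (t : ℝ) : mv g (bl π M t) = bl π (mv g M) t := mv_sh g _ M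

theorem mv_LM (g h : GL (Fin n) K) : mv g (LM hv h) = LM hv (g * h) := by
  ext x
  rw [mem_mv, mem_LM, mem_LM, _root_.mul_inv_rev, Units.val_mul]
  refine forall_congr' fun i => ?_
  rw [Matrix.mulVec_mulVec]

theorem mv_isSub {g : GL (Fin n) K} {W : Lt hv n} (hW : IsSub W) : IsSub (mv g W) := by
  intro c x hx
  rw [mem_mv] at hx ⊢
  rw [Matrix.mulVec_smul]
  exact hW c _ hx

theorem mv_eq_bot {g : GL (Fin n) K} {W : Lt hv n} : mv g W = ⊥ ↔ W = ⊥ := by
  constructor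
  · intro h
    rw [← mv_bot g] at h
    exact mv_inj.1 h
  · rintro rfl
    exact mv_bot g

/-! ### suprema -/

theorem kp_le {P : ℝ → Lt hv n} {M : Lt hv n} (hb : BddBelow {t | M ≤ P t}) {t : ℝ} (h : M ≤ P t) : kp P M ≤ t :=
  csInf_le hb h

/-- the supremum is attained -/
theorem le_kp {P : ℝ → Lt hv n} {M : Lt hv n} (hm : Monotone P) (hr : ∀ t, ∃ s, t < s ∧ P s = P t)
    (hne : {t | M ≤ P t}.Nonempty) : M ≤ P (kp P M) := by
  obtain ⟨s, hs, hs'⟩ := hr (kp P M)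
  obtain ⟨t, ht, ht'⟩ := exists_lt_of_csInf_lt hne hs
  rw [← hs']
  exact (show M ≤ P t from ht).trans (hm ht'.le)

theorem kp_le_iff {P : ℝ → Lt hv n} {M : Lt hv n} (hm : Monotone P) (hr : ∀ t, ∃ s, t < s ∧ P s = P t)
    (hb : BddBelow {t | M ≤ P t}) (hne : {t | M ≤ P t}.Nonempty) {t : ℝ} : kp P M ≤ t ↔ M ≤ P t :=
  ⟨fun h => (le_kp hm hr hne).trans (hm h), kp_le hb⟩

theorem kp_mv (g : GL (Fin n) K) (P : ℝ → Lt hv n) (M : Lt hv n) : kp (fun t => mv g (P t)) (mv g M) = kp P M := by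
  unfold kp
  congr 1
  ext t
  exact mv_le_iff

/-! ### adapted bases -/

theorem geR_mono {r s : ℝ} (h : r ≤ s) {x : K} (hx : GeR v s x) : GeR v r x := fun h0 => h.trans (hx h0)

/-- comparison of the exponents of two norms for two lattices -/
theorem ad_le {B B' : ℝ → Lt hv n} {M M' : Lt hv n} {e e' : GL (Fin n) K} {β β' : Fin n → ℝ} (hπ : v π = 1)
    (h : Ad B M e β) (h' : Ad B' M' e' β') {a : ℝ} (ha : ∀ t, B t ≤ B' (t + a)) {R : ℤ} (hR : M' ≤ sh π (-R) M)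
    (k : Fin n) : β k - a - R ≤ β' k := by
  classical
  -- a vector which vanishes on the right coordinates
  obtain ⟨f, hf⟩ : ∃ f : (Fin n → K) →ₗ[K] ({i : Fin n // i ≠ k} → K), ∀ x i, f x i =
      if i.1 < k then ((e⁻¹).val.mulVec x) i.1 else ((e'⁻¹).val.mulVec x) i.1 := by
    refine ⟨LinearMap.pi fun i => if i.1 < k then (LinearMap.proj i.1).comp (Matrix.mulVecLin (e⁻¹).val) else
      (LinearMap.proj i.1).comp (Matrix.mulVecLin (e'⁻¹).val), fun x i => ?_⟩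
    rw [LinearMap.pi_apply]
    split_ifs <;> rfl
  have hk : LinearMap.ker f ≠ ⊥ := by
    apply LinearMap.ker_ne_bot_of_finrank_lt
    rw [Module.finrank_fintype_fun_eq_card, Module.finrank_fintype_fun_eq_card]
    exact Fintype.card_subtype_lt (x := k) (by simp)
  obtain ⟨x, hx, hx0⟩ := Submodule.exists_mem_ne_zero_of_ne_bot hk
  rw [LinearMap.mem_ker] at hx
  have hx1 : ∀ i, i < k → ((e⁻¹).val.mulVec x) i = 0 := by
    intro i hi
    have := congrFun hx ⟨i, hi.ne⟩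
    rw [hf, if_pos hi] at this
    exact this
  have hx2 : ∀ i, k < i → ((e'⁻¹).val.mulVec x) i = 0 := by
    intro i hi
    have := congrFun hx ⟨i, hi.ne'⟩
    rw [hf, if_neg (not_lt.2 hi.le)] at this
    exact this
  obtain ⟨y, hy⟩ : ∃ y, y = (e'⁻¹).val.mulVec x := ⟨_, rfl⟩
  have hy0 : y ≠ 0 := by
    intro h0
    apply hx0
    rw [← mulVec_inv e' x, ← hy, h0, Matrix.mulVec_zero]
  -- a coordinate of least valuation
  obtain ⟨T, hT⟩ : ∃ T : Finset (Fin n), T = Finset.univ.filter fun i => y i ≠ 0 := ⟨_, rfl⟩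
  have hTne : T.Nonempty := by
    obtain ⟨i, hi⟩ := Function.ne_iff.1 hy0
    exact ⟨i, by rw [hT, Finset.mem_filter]; exact ⟨Finset.mem_univ _, hi⟩⟩
  obtain ⟨i0, hi0, hmin⟩ := Finset.exists_min_image T (fun i => v (y i)) hTne
  have hi0' : y i0 ≠ 0 := by
    rw [hT, Finset.mem_filter] at hi0
    exact hi0.2
  have hmin' : ∀ i, y i ≠ 0 → v (y i0) ≤ v (y i) := fun i hi =>
    hmin i (by rw [hT, Finset.mem_filter]; exact ⟨Finset.mem_univ _, hi⟩)
  have hik : i0 ≤ k := by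
    by_contra hcon
    exact hi0' (by rw [hy]; exact hx2 i0 (not_le.1 hcon))
  obtain ⟨m, hm⟩ : ∃ m, m = v (y i0) := ⟨_, rfl⟩
  -- x is in π^m M', hence in π^(m - R) M
  have h1 : x ∈ sh π m M' := by
    rw [mem_sh, ← h'.lat, mem_LM]
    intro i
    rw [Matrix.mulVec_smul, ← hy, Pi.smul_apply, smul_eq_mul, ge_zpow hv hπ]
    intro hi
    rw [hm]
    exact hmin' i hi
  have h2 : x ∈ sh π (m - R) M := by
    have := sh_mono (π := π) (k := m) hR h1
    rwa [sh_sh, ← sub_eq_add_neg] at this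
  have h3 : x ∈ B (-((m - R : ℤ) : ℝ) - β k) := by
    rw [h.mem]
    intro i hi
    rcases lt_or_ge i k with hik' | hik'
    · exact absurd (hx1 i hik') hi
    · rw [mem_sh, ← h.lat, mem_LM] at h2
      have h4 := h2 i
      rw [Matrix.mulVec_smul, Pi.smul_apply, smul_eq_mul, ge_zpow hv hπ] at h4
      have h5 : ((m - R : ℤ) : ℝ) ≤ (v (((e⁻¹).val.mulVec x) i) : ℝ) := by exact_mod_cast h4 hi
      have h6 := h.mono hik'
      linarith
  have h4 := (h'.mem _ _).1 (ha _ h3) i0 (by rw [← hy]; exact hi0')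
  rw [← hy, ← hm] at h4
  have h5 := h'.mono hik
  push_cast at h4
  linarith

theorem ad_unique {B : ℝ → Lt hv n} {M : Lt hv n} {e e' : GL (Fin n) K} {β β' : Fin n → ℝ} (hπ : v π = 1)
    (h : Ad B M e β) (h' : Ad B M e' β') : β = β' := by
  funext k
  have h1 : ∀ t, B t ≤ B (t + 0) := fun t => by rw [add_zero]
  have h2 : M ≤ sh π (-0) M := by rw [neg_zero, sh_zero]
  have h3 := ad_le hπ h h' h1 h2 k
  have h4 := ad_le hπ h' h h1 h2 k
  push_cast at h3 h4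
  linarith

theorem bt_eq {B : ℝ → Lt hv n} {M : Lt hv n} {e : GL (Fin n) K} {β : Fin n → ℝ} (hπ : v π = 1) (h : Ad B M e β)
    (k : Fin n) : bt B M k = β k := by
  have hex : ∃ e β, Ad B M e β := ⟨e, β, h⟩
  unfold bt
  rw [dif_pos hex]
  exact congrFun (ad_unique hπ hex.choose_spec.choose_spec h) k

/-- the chosen exponents have an adapted basis -/
theorem ad_bt {B : ℝ → Lt hv n} {M : Lt hv n} (h : ∃ e β, Ad B M e β) : ∃ e, Ad B M e (bt B M) := by
  refine ⟨h.choose, ?_⟩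
  have : bt B M = h.choose_spec.choose := by
    funext k
    unfold bt
    rw [dif_pos h]
  rw [this]
  exact h.choose_spec.choose_spec

theorem ad_mv {B : ℝ → Lt hv n} {M : Lt hv n} {e : GL (Fin n) K} {β : Fin n → ℝ} (h : Ad B M e β) (g : GL (Fin n) K) :
    Ad (fun t => mv g (B t)) (mv g M) (g * e) β where
  lat := by rw [← mv_LM, h.lat]
  mono := h.mono
  mem := by
    intro t x
    show x ∈ H75.CO.mv g (B t) ↔ _
    rw [mem_mv, h.mem]
    refine forall_congr' fun i => ?_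
    rw [_root_.mul_inv_rev, Units.val_mul, Matrix.mulVec_mulVec]

theorem hn_mv {B : ℝ → Lt hv n} (hB : Hn B) (h : GL (Fin n) K) : Hn (fun t => mv h (B t)) := by
  intro g
  obtain ⟨e, β, h1⟩ := hB (h⁻¹ * g)
  have h2 := ad_mv h1 h
  rw [mv_LM, mul_inv_cancel_left] at h2
  exact ⟨_, _, h2⟩

theorem exists_mv {B : ℝ → Lt hv n} {M : Lt hv n} (g : GL (Fin n) K) :
    (∃ e β, Ad (fun t => mv g (B t)) (mv g M) e β) ↔ ∃ e β, Ad B M e β := by
  constructor
  · rintro ⟨e, β, h⟩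
    have h1 := ad_mv h g⁻¹
    have h2 : (fun t => mv g⁻¹ ((fun t => mv g (B t)) t)) = B := by
      funext t
      show mv g⁻¹ (mv g (B t)) = B t
      rw [← mv_mul, inv_mul_cancel, mv_one]
    rw [h2, ← mv_mul, inv_mul_cancel, mv_one] at h1
    exact ⟨_, _, h1⟩
  · rintro ⟨e, β, h⟩
    exact ⟨_, _, ad_mv h g⟩

theorem bt_mv (hπ : v π = 1) (B : ℝ → Lt hv n) (M : Lt hv n) (g : GL (Fin n) K) (k : Fin n) :
    bt (fun t => mv g (B t)) (mv g M) k = bt B M k := by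
  by_cases h : ∃ e β, Ad B M e β
  · obtain ⟨e, β, h1⟩ := h
    rw [bt_eq hπ h1, bt_eq hπ (ad_mv h1 g)]
  · have h' : ¬ ∃ e β, Ad (fun t => mv g (B t)) (mv g M) e β := fun h' => h ((exists_mv g).1 h')
    unfold bt
    rw [dif_neg h, dif_neg h']

/-- the exponents for two lattices -/
theorem bt_sub {B : ℝ → Lt hv n} {M M' : Lt hv n} (hπ : v π = 1) (h : ∃ e β, Ad B M e β) (h' : ∃ e β, Ad B M' e β)
    {R : ℤ} (hR : M' ≤ sh π (-R) M) (k : Fin n) : bt B M k - R ≤ bt B M' k := by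
  obtain ⟨e, h1⟩ := ad_bt h
  obtain ⟨e', h2⟩ := ad_bt h'
  have := ad_le hπ h1 h2 (a := 0) (fun t => by rw [add_zero]) hR k
  linarith

theorem bt_mono {B : ℝ → Lt hv n} {M : Lt hv n} (h : ∃ e β, Ad B M e β) : Monotone (bt B M) := by
  obtain ⟨e, h1⟩ := ad_bt h
  exact h1.mono

/-- the balls of an honest norm are monotone -/
theorem ad_monotone {B : ℝ → Lt hv n} {M : Lt hv n} {e : GL (Fin n) K} {β : Fin n → ℝ} (h : Ad B M e β) : Monotone B := by
  intro s t hst x hx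
  rw [h.mem] at hx ⊢
  exact fun i => geR_mono (by linarith) (hx i)

theorem ad_per {B : ℝ → Lt hv n} {M : Lt hv n} {e : GL (Fin n) K} {β : Fin n → ℝ} (hπ : v π = 1) (h : Ad B M e β)
    (t : ℝ) (k : ℤ) : B (t + k) = sh π (-k) (B t) := by
  ext x
  rw [mem_sh, h.mem, h.mem]
  refine forall_congr' fun i => ?_
  rw [Matrix.mulVec_smul, Pi.smul_apply, smul_eq_mul, neg_neg]
  constructor
  · intro h1 h2
    have h3 : ((e⁻¹).val.mulVec x) i ≠ 0 := right_ne_zero_of_mul h2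
    rw [hv.mul _ _ (Units.ne_zero _) h3, v_zpow hv hπ, Int.cast_add]
    have := h1 h3
    linarith
  · intro h1 h3
    have := h1 (mul_ne_zero (Units.ne_zero _) h3)
    rw [hv.mul _ _ (Units.ne_zero _) h3, v_zpow hv hπ, Int.cast_add] at this
    linarith

theorem ad_rc {B : ℝ → Lt hv n} {M : Lt hv n} {e : GL (Fin n) K} {β : Fin n → ℝ} (h : Ad B M e β)
    (t : ℝ) : ∃ s, t < s ∧ B s = B t := by
  classical
  have key : ∀ i, ∃ d : ℝ, 0 < d ∧ ∀ s, t ≤ s → s < t + d → ∀ x : K, GeR v (-s - β i) x → GeR v (-t - β i) x := by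
    intro i
    obtain ⟨m, hm⟩ : ∃ m : ℤ, m = ⌈-t - β i⌉ := ⟨_, rfl⟩
    have h1 : ((m : ℝ) - 1) < -t - β i := by
      have := Int.ceil_lt_add_one (-t - β i)
      rw [← hm] at this
      linarith
    refine ⟨(-t - β i) - (m - 1), by linarith, fun s hs hs' x hx h0 => ?_⟩
    have h2 := hx h0
    have h3 : ((m : ℝ) - 1) < (v x : ℝ) := by linarith
    have h4 : m ≤ v x := by
      have : m - 1 < v x := by exact_mod_cast h3
      omega
    have h5 : ((m : ℤ) : ℝ) ≤ v x := by exact_mod_cast h4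
    have h6 := Int.le_ceil (-t - β i)
    rw [← hm] at h6
    linarith
  choose d hd hd' using key
  obtain ⟨D, hD, hD'⟩ : ∃ D : ℝ, 0 < D ∧ ∀ i, D ≤ d i := by
    rcases isEmpty_or_nonempty (Fin n) with hE | hE
    · exact ⟨1, one_pos, fun i => (hE.false i).elim⟩
    · refine ⟨Finset.univ.inf' Finset.univ_nonempty d, ?_, fun i => Finset.inf'_le _ (Finset.mem_univ i)⟩
      rw [Finset.lt_inf'_iff]
      exact fun i _ => hd i
  refine ⟨t + D / 2, by linarith, le_antisymm ?_ (ad_monotone h (by linarith))⟩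
  intro x hx
  rw [h.mem] at hx ⊢
  intro i
  exact hd' i _ (by linarith) (by have := hD' i; linarith) _ (hx i)

theorem ad_nm {B : ℝ → Lt hv n} {M : Lt hv n} {e : GL (Fin n) K} {β : Fin n → ℝ} (hπ : v π = 1) (h : Ad B M e β) : Nm π B where
  mono := ad_monotone h
  per := ad_per hπ h
  rc := ad_rc h

theorem hn_nm {B : ℝ → Lt hv n} (hπ : v π = 1) (hB : Hn B) : Nm π B := by
  obtain ⟨e, β, h⟩ := hB 1
  exact ad_nm hπ h

end

end Pool.Agent.H25.CO
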