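import Pool.Agent.H25.CO.Bas

/-!
# H25 CO, Wk: strong windows are weak windows
-/

set_option autoImplicit false
set_option linter.unusedVariables false

namespace Pool.Agent.H25.CO

open Pool.Agent.H54.TT Pool.Agent.H98.RH Pool.Agent.H75.CO Matrix
open scoped Pointwise

variable {K : Type} [Field K] {v : K → ℤ} {hv : IsDV v} {n : ℕ} {π : Kˣ} {G : Type} [Group G]
  {ρ : G →* GL (Fin n) K} {S : Set G} {R : ℕ}

/-- the conditions for levels are weaker for larger `θ` -/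
theorem lv_mono (hπ : v π = 1) {A c N : ℕ} {θ θ' : ℝ} (h0 : 0 < θ) (hθ : θ ≤ θ') {d : Dat n N} {g : G}
    {B : ℝ → Lt hv n} (hB : Monotone B) {W W1 : Lt hv n} (h : Lv π ρ S A c θ d g B W W1) :
    Lv π ρ S A c θ' d g B W W1 := by
  have hL : ∀ i : ℕ, (0 : ℝ) ≤ (Ln A c i : ℝ) := fun i => Nat.cast_nonneg _
  have hm : ∀ i : ℕ, θ * (Ln A c i : ℝ) ≤ θ' * (Ln A c i : ℝ) := fun i => mul_le_mul_of_nonneg_right hθ (hL i)
  have hd : ∀ i : ℕ, (Ln A c i : ℝ) / θ' ≤ (Ln A c i : ℝ) / θ := fun i => div_le_div_of_nonneg_left (hL i) h0 hθ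
  have hsg : ∀ (M : Lt hv n) (k : Fin n) (s t : ℝ), s ≤ t → sg π M B k s ≤ sg π M B k t := by
    intro M k s t hst
    exact sup_le_sup (hB (by linarith)) (bl_mono hπ hst M)
  have hhl : ∀ (m : ℕ) (κ : G → ℝ) (s t : ℝ), s ≤ t → hl π ρ S g m W κ s ≤ hl π ρ S g m W κ t := by
    intro m κ s t hst
    exact iSup₂_mono fun x _ => inf_le_inf le_rfl (bl_mono hπ (by linarith) _)
  refine ⟨h.le, ?_, ?_, ?_, ?_⟩
  · have := h.y1
    have := hm d.al
    linarith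
  · intro k' hk'
    refine (h.y2 k' hk').trans (hsg _ _ _ _ ?_)
    have := hd d.be
    linarith
  · refine h.t1.trans (hhl _ _ _ _ ?_)
    have := hd d.b
    linarith
  · intro T hT
    refine (h.t2 T (hT.trans (hd d.b))).trans (sup_le_sup le_rfl (bl_mono hπ ?_ _))
    have := hm d.a
    linarith

theorem tw_mono (hπ : v π = 1) {A c N : ℕ} {θ θ' : ℝ} (h0 : 0 < θ) (hθ : θ ≤ θ') {r : ℕ} {d : ℕ → Dat n N} {g : G}
    {B : ℝ → Lt hv n} (hB : Monotone B) {W : ℕ → Lt hv n} (h : Tw π ρ S A c θ r d g B W) :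
    Tw π ρ S A c θ' r d g B W :=
  ⟨h.top, h.bot, h.ne, h.sub, fun l hl => lv_mono hπ h0 hθ hB (h.lv l hl)⟩

/-- strong windows are weak windows -/
theorem St.wk (hn : 0 < n) (hs : Stp hv π ρ S R) {c : ℕ} (hc : 1 ≤ c) {r : ℕ} {d : ℕ → Dat n (NN n)} (hd : Rg r d)
    {g : G} {B : ℝ → Lt hv n} (hB : Hn B) {f : (Fin (r + 1) → ℤ) → Lt hv n} (hf : St π ρ S (AA n R) c r d g B f) :
    Wk π ρ S (AA n R) c r d g B f := by
  obtain ⟨W, p, h1, -, h2⟩ := hf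
  exact ⟨W, p, tw_mono hs.unif one_pos one_le_two (hn_nm hs.unif hB).mono h1, h2⟩

end Pool.Agent.H25.CO
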