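import Pool.Agent.H75.CO.Kap

/-!
# H25 CO, Hul: the hulls and the discounted hulls are families of balls
-/

set_option autoImplicit false

namespace Pool.Agent.H25.CO

open Pool.Agent.H54.TT Pool.Agent.H98.RH Pool.Agent.H75.CO Matrix
open scoped Pointwise

variable {K : Type} [Field K] {v : K → ℤ} {hv : IsDV v} {n : ℕ} {π : Kˣ} {G : Type} [Group G]
  {ρ : G →* GL (Fin n) K} {S : Set G} {R : ℕ}

theorem hl_nm (hs : Stp hv π ρ S R) {W : Lt hv n} (hW : IsSub W) (g : G) (m : ℕ) (κ : G → ℝ) :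
    Nm π (hl π ρ S g m W κ) := by
  refine Nm.iSup (hs.fin_pow m) fun s _ => ?_
  refine Nm.inf (nm_const hW) ?_
  have h1 := (nm_bl (π := π) hs.unif (La hv ρ (g * s))).shift (-(κ (g * s)))
  simpa only [← sub_eq_add_neg] using h1

theorem hl_le (W : Lt hv n) (g : G) (m : ℕ) (κ : G → ℝ) (t : ℝ) : hl π ρ S g m W κ t ≤ W :=
  iSup₂_le fun _ _ => inf_le_left

theorem hl_zero (W : Lt hv n) (g : G) (κ : G → ℝ) (t : ℝ) :
    hl π ρ S g 0 W κ t = W ⊓ bl π (La hv ρ g) (t - κ g) := by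
  unfold hl
  rw [pow_zero]
  refine le_antisymm (iSup₂_le fun s hs => ?_) ?_
  · rw [Set.mem_one] at hs
    rw [hs, mul_one]
  · have h1 : (1 : G) ∈ (1 : Set G) := Set.one_mem_one
    refine le_trans (le_of_eq ?_) (le_iSup₂_of_le (1 : G) h1 le_rfl)
    rw [mul_one]

theorem le_hl {W : Lt hv n} {g s : G} {m : ℕ} (hsm : s ∈ S ^ m) (κ : G → ℝ) (t : ℝ) :
    W ⊓ bl π (La hv ρ (g * s)) (t - κ (g * s)) ≤ hl π ρ S g m W κ t :=
  le_iSup₂_of_le (f := fun (s : G) (_ : s ∈ S ^ m) => W ⊓ bl π (La hv ρ (g * s)) (t - κ (g * s))) s hsm le_rfl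

theorem hl_mono (hs : Stp hv π ρ S R) (W : Lt hv n) (g : G) {m m' : ℕ} (h : m ≤ m') (κ : G → ℝ) (t : ℝ) :
    hl π ρ S g m W κ t ≤ hl π ρ S g m' W κ t :=
  iSup₂_le fun _ hsm => le_hl (hs.pow_mono h hsm) κ t

/-- the hull ball is in the ball of the norm -/
theorem hl_le_sg (hs : Stp hv π ρ S R) {B : ℝ → Lt hv n} (hB : Hn B) {W : Lt hv n} (hW : IsSub W) (hne : W ≠ ⊥)
    (k : Fin n) (g : G) (m : ℕ) (t : ℝ) :
    hl π ρ S g m W (kap π ρ B W k g) t ≤ sg π (La hv ρ g) B k t := by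
  refine iSup₂_le fun s _ => ?_
  have h1 := (kap_le_iff hs hB hW hne k g (g * s) _).2 le_rfl
  have h2 := (sh_le_sh (π := π) (k := -⌊t - kap π ρ B W k g (g * s)⌋)).2 h1
  have h3 : Nm π (sg π (La hv ρ g) B k) := sg_nm hs.unif hB (ρ g) k
  rw [sh_inf, sh_sub hW, ← h3.per, inf_comm] at h2
  refine h2.trans (h3.mono ?_)
  have := Int.floor_le (t - kap π ρ B W k g (g * s))
  linarith

theorem hl_le_of_le {W W' : Lt hv n} (hW : W ≤ W') {κ κ' : G → ℝ} (hπ : v π = 1) {g : G} {m : ℕ} {a : ℝ}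
    (h : ∀ s ∈ S ^ m, κ' (g * s) ≤ κ (g * s) + a) (t : ℝ) :
    hl π ρ S g m W κ t ≤ hl π ρ S g m W' κ' (t + a) := by
  refine iSup₂_le fun s hsm => le_trans (inf_le_inf hW (bl_mono hπ ?_ _)) (le_hl hsm κ' (t + a))
  have := h s hsm
  linarith

theorem Fb_nm (hs : Stp hv π ρ S R) {W W1 : Lt hv n} (hW : IsSub W) (hW1 : IsSub W1) (ε : ℝ) (g : G) (M : ℕ)
    (κ : G → ℝ) : Nm π (Fb π ρ S ε g M W W1 κ) := by
  refine Nm.sup ?_ (nm_const hW1)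
  have h1 : Nm π (fun t => ⨆ m ∈ ((Finset.range (M + 1) : Finset ℕ) : Set ℕ), hl π ρ S g m W κ (κ g + t - ε * m)) := by
    refine Nm.iSup (Finset.finite_toSet _) fun m _ => ?_
    have h2 := (hl_nm hs hW g m κ).shift (κ g - ε * m)
    refine (iff_of_eq (congrArg (Nm π) ?_)).1 h2
    funext t
    congr 1
    ring
  simpa only [Finset.mem_coe] using h1

theorem le_Fb {W W1 : Lt hv n} {ε : ℝ} {g : G} {M m : ℕ} (hm : m ≤ M) (κ : G → ℝ) (t : ℝ) :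
    hl π ρ S g m W κ (κ g + t - ε * m) ≤ Fb π ρ S ε g M W W1 κ t :=
  le_trans (le_iSup₂_of_le (f := fun (m : ℕ) (_ : m ∈ Finset.range (M + 1)) => hl π ρ S g m W κ (κ g + t - ε * m)) m
    (Finset.mem_range.2 (Nat.lt_succ_of_le hm)) le_rfl) le_sup_left

theorem W1_le_Fb {W W1 : Lt hv n} {ε : ℝ} {g : G} {M : ℕ} (κ : G → ℝ) (t : ℝ) :
    W1 ≤ Fb π ρ S ε g M W W1 κ t := le_sup_right

theorem Fb_le {W W1 : Lt hv n} (h : W1 ≤ W) {ε : ℝ} {g : G} {M : ℕ} (κ : G → ℝ) (t : ℝ) :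
    Fb π ρ S ε g M W W1 κ t ≤ W :=
  sup_le (iSup₂_le fun m _ => hl_le W g m κ _) h

theorem Fb_zero {W W1 : Lt hv n} {ε : ℝ} {g : G} {M : ℕ} (κ : G → ℝ) (t : ℝ) :
    W ⊓ bl π (La hv ρ g) t ≤ Fb π ρ S ε g M W W1 κ t := by
  refine le_trans (le_of_eq ?_) (le_Fb (m := 0) (Nat.zero_le _) κ t)
  rw [hl_zero]
  congr 2
  push_cast
  ring

end Pool.Agent.H25.CO
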