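import Pool.Agent.H75.CO.Defs
import Mathlib.Algebra.Group.Pointwise.Set.Card

/-!
# H25 CO, Tlc: the number of the lattice terms
-/

set_option autoImplicit false

namespace Pool.Agent.H25.CO

open Pool.Agent.H54.TT Pool.Agent.H98.RH Pool.Agent.H75.CO
open scoped Pointwise

theorem pow_ncard {G : Type} [Group G] {S : Set G} (hS : S.Finite) (m : ℕ) :
    (S ^ m).Finite ∧ (S ^ m).ncard ≤ S.ncard ^ m := by
  induction m with
  | zero =>
    rw [pow_zero, pow_zero]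
    exact ⟨Set.finite_one, by rw [← Set.singleton_one, Set.ncard_singleton]⟩
  | succ m ih =>
    rw [pow_succ, pow_succ]
    refine ⟨ih.1.mul hS, ?_⟩
    have h1 : (S ^ m * S) = (fun p : G × G => p.1 * p.2) '' ((S ^ m) ×ˢ S) := (Set.image_mul_prod).symm
    rw [h1]
    refine (Set.ncard_image_le (ih.1.prod hS)).trans ?_
    rw [Set.ncard_prod]
    exact Nat.mul_le_mul_right _ ih.2

theorem icc_ncard (C : ℕ) : {k : ℤ | |k| ≤ (C : ℤ)}.Finite ∧ {k : ℤ | |k| ≤ (C : ℤ)}.ncard ≤ 2 * C + 1 := by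
  have h1 : {k : ℤ | |k| ≤ (C : ℤ)} = ((Finset.Icc (-(C : ℤ)) C : Finset ℤ) : Set ℤ) := by
    ext k
    rw [Set.mem_ofPred_eq, abs_le, Finset.mem_coe, Finset.mem_Icc]
  rw [h1, Set.ncard_coe_finset, Int.card_Icc]
  exact ⟨Finset.finite_toSet _, by omega⟩

/-- the number of the terms -/
theorem TL_card {G : Type} [Group G] {S : Set G} (hS : S.Finite) (m C j : ℕ) :
    (TL S m C j).Finite ∧ (TL S m C j).ncard ≤ (10 * (C + 1) * (S.ncard + 1) ^ m) ^ 3 ^ j := by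
  obtain ⟨hI, hIc⟩ := icc_ncard C
  obtain ⟨b, hb⟩ : ∃ b, b = 10 * (C + 1) * (S.ncard + 1) ^ m := ⟨_, rfl⟩
  have hb1 : 10 * (C + 1) ≤ b := by
    rw [hb]
    exact Nat.le_mul_of_pos_right _ (Nat.pow_pos (Nat.succ_pos _))
  rw [← hb]
  induction j with
  | zero =>
    have h1 : TL S m C 0 = (fun p : G × ℤ => Pool.Agent.H98.RH.LT.sc p.2 (Pool.Agent.H98.RH.LT.sym p.1)) ''
        ((S ^ m) ×ˢ {k : ℤ | |k| ≤ (C : ℤ)}) := by
      ext t
      constructor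
      · rintro ⟨s, hs, k, hk, rfl⟩
        exact ⟨(s, k), ⟨hs, hk⟩, rfl⟩
      · rintro ⟨⟨s, k⟩, ⟨hs, hk⟩, rfl⟩
        exact ⟨s, hs, k, hk, rfl⟩
    obtain ⟨h2, h3⟩ := pow_ncard hS m
    rw [h1]
    refine ⟨(h2.prod hI).image _, (Set.ncard_image_le (h2.prod hI)).trans ?_⟩
    rw [Set.ncard_prod, pow_zero, pow_one, hb]
    calc (S ^ m).ncard * {k : ℤ | |k| ≤ (C : ℤ)}.ncard ≤ (S.ncard + 1) ^ m * (10 * (C + 1)) :=
          Nat.mul_le_mul (h3.trans (Nat.pow_le_pow_left (Nat.le_succ _) m)) (by omega)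
      _ = 10 * (C + 1) * (S.ncard + 1) ^ m := mul_comm _ _
  | succ j ih =>
    obtain ⟨hf, hc⟩ := ih
    obtain ⟨P, hP⟩ : ∃ P, P = b ^ 3 ^ j := ⟨_, rfl⟩
    have hbP : b ≤ P := by
      rw [hP]
      exact Nat.le_self_pow (by positivity) b
    have h1 : TL S m C (j + 1) ⊆ TL S m C j ∪ ((fun p : ℤ × Pool.Agent.H98.RH.LT G => Pool.Agent.H98.RH.LT.sc p.1 p.2) ''
        ({k : ℤ | |k| ≤ (C : ℤ)} ×ˢ TL S m C j) ∪
        ((fun p : Pool.Agent.H98.RH.LT G × Pool.Agent.H98.RH.LT G => Pool.Agent.H98.RH.LT.sum p.1 p.2) ''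
          (TL S m C j ×ˢ TL S m C j) ∪
          (fun p : Pool.Agent.H98.RH.LT G × Pool.Agent.H98.RH.LT G => Pool.Agent.H98.RH.LT.inf p.1 p.2) ''
          (TL S m C j ×ˢ TL S m C j))) := by
      rintro t (ht | ⟨t1, ht1, t2, ht2, k, hk, rfl | rfl | rfl⟩)
      · exact Or.inl ht
      · exact Or.inr (Or.inl ⟨(k, t1), ⟨hk, ht1⟩, rfl⟩)
      · exact Or.inr (Or.inr (Or.inl ⟨(t1, t2), ⟨ht1, ht2⟩, rfl⟩))
      · exact Or.inr (Or.inr (Or.inr ⟨(t1, t2), ⟨ht1, ht2⟩, rfl⟩))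
    have hfin := hf.union (((hI.prod hf).image fun p : ℤ × Pool.Agent.H98.RH.LT G => Pool.Agent.H98.RH.LT.sc p.1 p.2).union
      (((hf.prod hf).image fun p : Pool.Agent.H98.RH.LT G × Pool.Agent.H98.RH.LT G => Pool.Agent.H98.RH.LT.sum p.1 p.2).union
      ((hf.prod hf).image fun p : Pool.Agent.H98.RH.LT G × Pool.Agent.H98.RH.LT G => Pool.Agent.H98.RH.LT.inf p.1 p.2)))
    refine ⟨hfin.subset h1, (Set.ncard_le_ncard h1 hfin).trans ?_⟩
    refine (Set.ncard_union_le _ _).trans ?_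
    refine (Nat.add_le_add_left ((Set.ncard_union_le _ _).trans (Nat.add_le_add_left (Set.ncard_union_le _ _) _)) _).trans ?_
    have e1 := Set.ncard_image_le (f := fun p : ℤ × Pool.Agent.H98.RH.LT G => Pool.Agent.H98.RH.LT.sc p.1 p.2) (hI.prod hf)
    have e2 := Set.ncard_image_le (f := fun p : Pool.Agent.H98.RH.LT G × Pool.Agent.H98.RH.LT G =>
      Pool.Agent.H98.RH.LT.sum p.1 p.2) (hf.prod hf)
    have e3 := Set.ncard_image_le (f := fun p : Pool.Agent.H98.RH.LT G × Pool.Agent.H98.RH.LT G =>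
      Pool.Agent.H98.RH.LT.inf p.1 p.2) (hf.prod hf)
    rw [Set.ncard_prod] at e1 e2 e3
    rw [← hP] at hc
    have e4 : {k : ℤ | |k| ≤ (C : ℤ)}.ncard * (TL S m C j).ncard ≤ b * P := Nat.mul_le_mul (by omega) hc
    have e5 : (TL S m C j).ncard * (TL S m C j).ncard ≤ P * P := Nat.mul_le_mul hc hc
    have e6 : b * P ≤ P * P := Nat.mul_le_mul_right _ hbP
    have e7 : b ^ 3 ^ (j + 1) = P * P * P := by
      rw [hP, pow_succ 3 j, pow_mul]
      ring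
    rw [e7]
    have h10 : 10 ≤ P := le_trans (by omega) hbP
    have e8 : 10 * (P * P) ≤ P * P * P := by
      rw [mul_comm 10]
      exact Nat.mul_le_mul_left _ h10
    have e9 : P ≤ P * P := Nat.le_mul_of_pos_left _ (by omega)
    omega

end Pool.Agent.H25.CO
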